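import Pool.Agent.Helper99.SI.StD

set_option autoImplicit false

/-!
# Project SI (MP_181f94_al), module D10: the Gram operator commutes with the conjugation
-/

namespace Pool.Agent.Helper64.SI

open Pool.Agent.Helper99.SI

section
variable {n : ℕ} {L : Type} [Ring L] [Algebra ℂ L] [StarRing L]

/-- The swap of the two copies of the words. -/
def sw (n r : ℕ) : Idx n r ≃ Idx n r := Equiv.sumCongr (Equiv.sumComm _ _) (Equiv.refl _)

@[simp] theorem sw_ll {n r : ℕ} (ν : W n) :
    sw n r (Sum.inl (Sum.inl ν)) = Sum.inl (Sum.inr ν) := rfl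
@[simp] theorem sw_lr {n r : ℕ} (ν : W n) :
    sw n r (Sum.inl (Sum.inr ν)) = Sum.inl (Sum.inl ν) := rfl
@[simp] theorem sw_r {n r : ℕ} (a : Fin r) : sw n r (Sum.inr a) = Sum.inr a := rfl

theorem inj_ll (n r : ℕ) :
    Function.Injective (fun μ : W n => (Sum.inl (Sum.inl μ) : Idx n r)) :=
  fun _ _ h => Sum.inl_injective (Sum.inl_injective h)

theorem inj_lr (n r : ℕ) :
    Function.Injective (fun μ : W n => (Sum.inl (Sum.inr μ) : Idx n r)) :=
  fun _ _ h => Sum.inr_injective (Sum.inl_injective h)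

theorem md_ll {r : ℕ} (p : W n →₀ ℂ) (k : Idx n r) :
    (p.mapDomain fun μ => (Sum.inl (Sum.inl μ) : Idx n r)) k =
      match k with
      | Sum.inl (Sum.inl μ) => p μ
      | Sum.inl (Sum.inr _) => 0
      | Sum.inr _ => 0 := by
  rcases k with (μ | μ) | a
  · exact Finsupp.mapDomain_apply (inj_ll n r) p μ
  · apply Finsupp.mapDomain_of_notMem_range
    rintro ⟨x, hx⟩
    simp at hx
  · apply Finsupp.mapDomain_of_notMem_range
    rintro ⟨x, hx⟩
    simp at hx

theorem md_lr {r : ℕ} (p : W n →₀ ℂ) (k : Idx n r) :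
    (p.mapDomain fun μ => (Sum.inl (Sum.inr μ) : Idx n r)) k =
      match k with
      | Sum.inl (Sum.inl _) => 0
      | Sum.inl (Sum.inr μ) => p μ
      | Sum.inr _ => 0 := by
  rcases k with (μ | μ) | a
  · apply Finsupp.mapDomain_of_notMem_range
    rintro ⟨x, hx⟩
    simp at hx
  · exact Finsupp.mapDomain_apply (inj_lr n r) p μ
  · apply Finsupp.mapDomain_of_notMem_range
    rintro ⟨x, hx⟩
    simp at hx

theorem kcol_sw (D : Sys n L) (r M4 : ℕ) (t : ℝ) (κ : W n) (i k : Idx n r) :
    D.kcol r M4 t κ (sw n r i) (sw n r k) = star (D.kcol r M4 t κ i k) := by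
  rcases i with (ν | ν) | a
  · rw [sw_ll]
    unfold Sys.kcol
    by_cases h : M4 ≤ ν.length
    · simp only [if_pos h]
      rw [md_lr, md_ll]
      rcases k with (μ | μ) | b <;> simp
    · simp only [if_neg h]
      simp
  · rw [sw_lr]
    unfold Sys.kcol
    by_cases h : M4 ≤ ν.length
    · simp only [if_pos h]
      rw [md_lr, md_ll]
      rcases k with (μ | μ) | b <;> simp
    · simp only [if_neg h]
      simp
  · rw [sw_r]
    unfold Sys.kcol
    simp

theorem kcol_len (D : Sys n L) (r M4 : ℕ) (t : ℝ) (κ : W n) (i : Idx n r) (k : Idx n r)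
    (h : D.kcol r M4 t κ i k ≠ 0) : M4 ≤ ilen i ∧ ∀ a, i ≠ Sum.inr a := by
  rcases i with (ν | ν) | a
  · refine ⟨?_, fun a => by simp⟩
    by_contra h1
    apply h
    unfold Sys.kcol
    change ¬ M4 ≤ ν.length at h1
    simp [h1]
  · refine ⟨?_, fun a => by simp⟩
    by_contra h1
    apply h
    unfold Sys.kcol
    change ¬ M4 ≤ ν.length at h1
    simp [h1]
  · exact absurd (by unfold Sys.kcol; simp) h

theorem op_eb {ι : Type} [DecidableEq ι] {T : L2 ι →L[ℂ] L2 ι} {a : ι → (ι →₀ ℂ)}
    (hT : IsOp T a) (i k : ι) : T (eb i) k = a i k := by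
  rw [hT, finsum_eq_single _ i]
  · have : (eb i : L2 ι) i = 1 := by
      unfold eb
      rw [lp.single_apply]
      simp
    rw [this, mul_one]
  · intro j hj
    have : (eb i : L2 ι) j = 0 := by
      unfold eb
      rw [lp.single_apply]
      simp [hj]
    rw [this, mul_zero]

theorem adj_coord {ι : Type} [DecidableEq ι] {T : L2 ι →L[ℂ] L2 ι} {a : ι → (ι →₀ ℂ)}
    (hT : IsOp T a) (y : L2 ι) (i : ι) :
    (ContinuousLinearMap.adjoint T) y i = ∑' k, y k * star (a i k) := by
  have h1 : inner ℂ (eb i : L2 ι) ((ContinuousLinearMap.adjoint T) y) =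
      (ContinuousLinearMap.adjoint T) y i := by
    unfold eb
    rw [lp.inner_single_left]
    simp
  rw [← h1, ContinuousLinearMap.adjoint_inner_right, lp.inner_eq_tsum]
  apply tsum_congr
  intro k
  rw [op_eb hT]
  simp [RCLike.inner_apply]

end

theorem hD10 : StD10 := by
  classical
  intro n L _ _ _ _ _ D X0 m n1 M4 hm hL hM K Cop hK hC t u ht hu z
  -- the conjugation far out
  have hfar : ∀ (y : L2 (Idx n m.r)) (i : Idx n m.r), M4 ≤ ilen i → (∀ a, i ≠ Sum.inr a) →
      Cop t y i = star (y (sw n m.r i)) := by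
    intro y i hi hia
    have hz : ∀ a : Fin m.r, m.Cc t (Sum.inr a) i = 0 := by
      intro a
      show (∑ j ∈ m.Z, (t : ℂ) ^ j • m.Cm j a) i = 0
      rw [Finsupp.finsetSum_apply]
      apply Finset.sum_eq_zero
      intro j _
      have : m.Cm j a i = 0 := by
        by_contra h
        have := hm.Csupp j a i h
        omega
      rw [Finsupp.smul_apply, this, smul_zero]
    rw [hC t ht]
    rcases i with (ν | ν) | a
    · show star (y (Sum.inl (Sum.inr ν))) + ∑ a, star (y (Sum.inr a)) * m.Cc t (Sum.inr a) _ = _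
      simp [hz]
    · show star (y (Sum.inl (Sum.inl ν))) + ∑ a, star (y (Sum.inr a)) * m.Cc t (Sum.inr a) _ = _
      simp [hz]
    · exact absurd rfl (hia a)
  have hadd : ∀ y1 y2 : L2 (Idx n m.r), Cop t (y1 + y2) = Cop t y1 + Cop t y2 := by
    intro y1 y2
    ext i
    rw [lp.coeFn_add, Pi.add_apply, hC t ht, hC t ht, hC t ht]
    rcases i with (ν | ν) | a <;>
    · simp only [MData.Cf, lp.coeFn_add, Pi.add_apply, star_add, add_mul,
        Finset.sum_add_distrib]
      try ring
  have hsm : ∀ (c : ℂ) (y : L2 (Idx n m.r)), Cop t (c • y) = star c • Cop t y := by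
    intro c y
    ext i
    rw [lp.coeFn_smul, Pi.smul_apply, hC t ht, hC t ht]
    rcases i with (ν | ν) | a <;>
    · simp only [MData.Cf, lp.coeFn_smul, Pi.smul_apply, star_mul', smul_eq_mul, mul_add,
        Finset.mul_sum, mul_assoc]
  have hu1 : 0 < u ^ n1 := pow_pos hu _
  have hA : ∀ κ : W n, κ.length ≤ n1 → ∀ y : L2 (Idx n m.r),
      Cop t ((ContinuousLinearMap.adjoint (K κ (u ^ n1))) (K κ (u ^ n1) y)) =
        (ContinuousLinearMap.adjoint (K κ (u ^ n1))) (K κ (u ^ n1) (Cop t y)) := by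
    intro κ hκ y
    have hT := hK κ hκ (u ^ n1) hu1
    set T := K κ (u ^ n1) with hTd
    set a := D.kcol m.r M4 (u ^ n1) κ with ha
    have e1 : ∀ k, T (Cop t y) k = star (T y (sw n m.r k)) := by
      intro k
      rw [hT, hT]
      have h2 : star (∑ᶠ i, a i (sw n m.r k) * y i) =
          ∑ᶠ i, star (a i (sw n m.r k) * y i) :=
        AddEquiv.map_finsum (starAddEquiv (R := ℂ)) _
      rw [h2, ← finsum_comp_equiv (sw n m.r)]
      apply finsum_congr
      intro i
      have hsk : sw n m.r (sw n m.r k) = k := by rcases k with (_ | _) | _ <;> rfl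
      have hsi : sw n m.r (sw n m.r i) = i := by rcases i with (_ | _) | _ <;> rfl
      have h7 : a (sw n m.r i) k = star (a i (sw n m.r k)) := by
        have := kcol_sw D m.r M4 (u ^ n1) κ i (sw n m.r k)
        rw [hsk] at this
        rw [ha, this]
      rw [h7, star_mul']
      by_cases h3 : a i (sw n m.r k) = 0
      · rw [h3, star_zero, zero_mul, zero_mul]
      · obtain ⟨h4, h5⟩ := kcol_len D _ _ _ _ _ _ h3
        have h8 : M4 ≤ ilen (sw n m.r i) := by
          rcases i with (_ | _) | _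
          · exact h4
          · exact h4
          · exact h4
        have h9 : ∀ b, sw n m.r i ≠ Sum.inr b := by
          intro b hb
          apply h5 b
          rw [← hsi, hb]
          rfl
        rw [hfar y _ h8 h9, hsi]
    have e2 : ∀ i, (ContinuousLinearMap.adjoint T) (T (Cop t y)) i =
        star ((ContinuousLinearMap.adjoint T) (T y) (sw n m.r i)) := by
      intro i
      rw [adj_coord hT, adj_coord hT, tsum_star, ← (sw n m.r).tsum_eq]
      apply tsum_congr
      intro k
      have hss : sw n m.r (sw n m.r k) = k := by rcases k with (_ | _) | _ <;> rfl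
      have h6 : a i (sw n m.r k) = star (a (sw n m.r i) k) := by
        have := kcol_sw D m.r M4 (u ^ n1) κ i (sw n m.r k)
        rw [hss] at this
        rw [ha, this, star_star]
      rw [e1, hss, h6, star_mul', star_star]
    have e3 : ∀ b : Fin m.r, (ContinuousLinearMap.adjoint T) (T y) (Sum.inr b) = 0 := by
      intro b
      rw [adj_coord hT]
      have : a (Sum.inr b) = 0 := rfl
      simp [this]
    ext i
    rw [e2, hC t ht]
    rcases i with (ν | ν) | b
    · simp [MData.Cf, e3]
    · simp [MData.Cf, e3]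
    · simp [MData.Cf, e3]
  let CH : L2 (Idx n m.r) →+ L2 (Idx n m.r) := AddMonoidHom.mk' (Cop t) hadd
  have hCH : ∀ y, CH y = Cop t y := fun y => rfl
  have hG : ∀ y : L2 (Idx n m.r), Gop n1 K u y = y + ∑ j ∈ Finset.Ico 1 n1, ∑ κ : Fin j → Fin n,
      ((u : ℂ) ^ (-2 * (j : ℤ))) • (ContinuousLinearMap.adjoint (K (List.ofFn κ) (u ^ n1)))
        (K (List.ofFn κ) (u ^ n1) y) := by
    intro y
    unfold Gop
    simp only [add_apply, sum_apply, smul_apply, ContinuousLinearMap.comp_apply,
      one_apply_eq_self]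
  rw [hG, hG, ← hCH, map_add, map_sum, hCH]
  congr 1
  apply Finset.sum_congr rfl
  intro j hj
  rw [map_sum]
  apply Finset.sum_congr rfl
  intro κ _
  rw [hCH, hsm, hA]
  · congr 1
    rw [← starRingEnd_apply, map_zpow₀, Complex.conj_ofReal]
  · rw [List.length_ofFn]
    have := (Finset.mem_Ico.1 hj).2
    omega

end Pool.Agent.Helper64.SI
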